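import Pool.Agent.Y171.CE.Stm

/-!
# CE-DG: degrees of polynomial matrices, number of nilpotent matrices
-/

set_option autoImplicit false

open Polynomial Matrix

namespace Pool.Agent.Y495.CE

open Pool.Agent.Y171.CE

theorem nil : S_NIL := by
  intro p _
  have e : NilT p ≃ ZMod p × ZMod p :=
    { toFun := fun t => (t.1.2.1, if t.1.2.1 = 0 then t.1.2.2 else t.1.1)
      invFun := fun s => if h : s.1 = 0 then ⟨(0, 0, s.2), by ring⟩
        else ⟨(s.2, s.1, -(s.2 * s.2) / s.1), by field_simp; ring⟩
      left_inv := by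
        rintro ⟨⟨a, b, c⟩, h⟩
        have h' : a * a + b * c = 0 := h
        by_cases hb : b = 0
        · subst hb
          have ha : a = 0 := by
            rw [zero_mul, add_zero] at h'
            exact mul_self_eq_zero.1 h'
          subst ha
          simp
        · simp only [hb, dite_false, if_false]
          apply Subtype.ext
          have hc : -(a * a) / b = c := by
            rw [div_eq_iff hb]
            linear_combination -h'
          show (a, b, -(a * a) / b) = (a, b, c)
          rw [hc]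
      right_inv := by
        rintro ⟨b, s⟩
        by_cases hb : b = 0
        · subst hb
          simp
        · simp [hb] }
  rw [Fintype.card_congr e, Fintype.card_prod, ZMod.card, pow_two]

variable {p : ℕ} [Fact p.Prime]

theorem entry_le (γ : SL2 (ZMod p)[X]) (i j : Fin 2) : (γ.1 i j).natDegree ≤ dg γ :=
  le_trans (Finset.le_sup (f := fun j : Fin 2 => (γ.1 i j).natDegree) (Finset.mem_univ j))
    (Finset.le_sup (f := fun i : Fin 2 => Finset.univ.sup (fun j : Fin 2 => (γ.1 i j).natDegree))
      (Finset.mem_univ i))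

theorem dg_le_iff (γ : SL2 (ZMod p)[X]) (r : ℕ) : dg γ ≤ r ↔ ∀ i j, (γ.1 i j).natDegree ≤ r := by
  constructor
  · intro h i j
    exact (entry_le γ i j).trans h
  · intro h
    exact Finset.sup_le fun i _ => Finset.sup_le fun j _ => h i j

theorem st_entry (N : NilT p) (i j : Fin 2) :
    ((st (X : (ZMod p)[X]) N).1 i j).natDegree ≤ 1 := by
  have h1 : ∀ a : ZMod p, (X * algebraMap (ZMod p) (ZMod p)[X] a).natDegree ≤ 1 := by
    intro a
    rw [Polynomial.algebraMap_eq]
    refine natDegree_mul_le.trans ?_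
    rw [natDegree_C, add_zero]
    exact natDegree_X_le
  have h2 : ∀ a : ZMod p, (1 + X * algebraMap (ZMod p) (ZMod p)[X] a).natDegree ≤ 1 := fun a =>
    (natDegree_add_le _ _).trans (max_le (by simp) (h1 a))
  have h3 : ∀ a : ZMod p, (1 - X * algebraMap (ZMod p) (ZMod p)[X] a).natDegree ≤ 1 := fun a =>
    (natDegree_sub_le _ _).trans (max_le (by simp) (h1 a))
  unfold st
  fin_cases i <;> fin_cases j
  · exact h2 _
  · exact h1 _
  · exact h1 _
  · exact h3 _

theorem dg_mul_left (N : NilT p) (γ : SL2 (ZMod p)[X]) : dg (st X N * γ) ≤ dg γ + 1 := by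
  rw [dg_le_iff]
  intro i j
  rw [Matrix.SpecialLinearGroup.coe_mul, Matrix.mul_apply, Fin.sum_univ_two]
  refine (natDegree_add_le _ _).trans (max_le ?_ ?_)
  · refine natDegree_mul_le.trans ?_
    have h1 := st_entry N i 0
    have h2 := entry_le γ 0 j
    omega
  · refine natDegree_mul_le.trans ?_
    have h1 := st_entry N i 1
    have h2 := entry_le γ 1 j
    omega

theorem dg_mul_right (N : NilT p) (γ : SL2 (ZMod p)[X]) : dg (γ * st X N) ≤ dg γ + 1 := by
  rw [dg_le_iff]
  intro i j
  rw [Matrix.SpecialLinearGroup.coe_mul, Matrix.mul_apply, Fin.sum_univ_two]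
  refine (natDegree_add_le _ _).trans (max_le ?_ ?_)
  · refine natDegree_mul_le.trans ?_
    have h1 := st_entry N 0 j
    have h2 := entry_le γ i 0
    omega
  · refine natDegree_mul_le.trans ?_
    have h1 := st_entry N 1 j
    have h2 := entry_le γ i 1
    omega

theorem dg_inv_le (γ : SL2 (ZMod p)[X]) : dg γ⁻¹ ≤ dg γ := by
  rw [dg_le_iff]
  intro i j
  rw [Matrix.SpecialLinearGroup.coe_inv, Matrix.adjugate_fin_two]
  fin_cases i <;> fin_cases j
  · exact entry_le γ 1 1
  · show (-(γ.1 0 1)).natDegree ≤ dg γ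
    rw [natDegree_neg]
    exact entry_le γ 0 1
  · show (-(γ.1 1 0)).natDegree ≤ dg γ
    rw [natDegree_neg]
    exact entry_le γ 1 0
  · exact entry_le γ 0 0

theorem dg_inv (γ : SL2 (ZMod p)[X]) : dg γ⁻¹ = dg γ := by
  refine le_antisymm (dg_inv_le γ) ?_
  have h := dg_inv_le γ⁻¹
  rwa [inv_inv] at h

theorem dg_one : dg (1 : SL2 (ZMod p)[X]) = 0 := by
  apply Nat.eq_zero_of_le_zero
  rw [dg_le_iff]
  intro i j
  rw [Matrix.SpecialLinearGroup.coe_one]
  by_cases h : i = j
  · rw [h, Matrix.one_apply_eq, natDegree_one]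
  · rw [Matrix.one_apply_ne h, natDegree_zero]

theorem dg_pw (l : List (NilT p)) : dg (pw (X : (ZMod p)[X]) l) ≤ l.length := by
  induction l with
  | nil =>
    show dg (1 : SL2 (ZMod p)[X]) ≤ 0
    rw [dg_one]
  | cons N l ih =>
    have h : pw (X : (ZMod p)[X]) (N :: l) = st X N * pw X l := by
      unfold pw
      rw [List.map_cons, List.prod_cons]
    rw [h, List.length_cons]
    exact (dg_mul_left N _).trans (by omega)

theorem dgs : S_DG := by
  intro p _
  exact ⟨dg_mul_left, dg_mul_right, dg_inv, dg_pw⟩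

end Pool.Agent.Y495.CE
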