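import Pool.Agent.Y171.CE.Stm

/-!
# CE-EX: finite fields with a generator; the number of elements of `SL_2(F)`
-/

set_option autoImplicit false

open Polynomial Matrix

namespace Pool.Agent.Y495.CE

open Pool.Agent.Y171.CE

theorem ex : S_EX := by
  intro p _ k hk
  have hk0 : k ≠ 0 := by omega
  classical
  let i1 : Fintype (GaloisField p k) := Fintype.ofFinite _
  obtain ⟨x, hx⟩ := Field.exists_primitive_element (ZMod p) (GaloisField p k)
  refine ⟨GaloisField p k, inferInstance, i1, inferInstance, inferInstance, x, ?_⟩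
  refine ⟨?_, hk, minpoly (ZMod p) x, ?_, fun g => (minpoly.dvd_iff).symm⟩
  · rw [← Nat.card_eq_fintype_card]
    exact GaloisField.card p k hk0
  · rw [(Field.primitive_element_iff_minpoly_natDegree_eq (F := ZMod p) x).1 hx]
    exact GaloisField.finrank p hk0

section
variable {F : Type} [Field F] [Fintype F] [DecidableEq F]

omit [Fintype F] [DecidableEq F] in
theorem det_eq (M : SL2 F) : M.1 0 0 * M.1 1 1 - M.1 0 1 * M.1 1 0 = 1 := by
  have h := M.2
  rwa [Matrix.det_fin_two] at h

theorem card_le : Fintype.card (SL2 F) ≤ Fintype.card F ^ 3 := by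
  have h : Function.Injective (fun M : SL2 F =>
      if M.1 0 0 = 0 then ((0 : F), M.1 0 1, M.1 1 1) else (M.1 0 0, M.1 0 1, M.1 1 0)) := by
    intro M M' hMM
    have d1 := det_eq M
    have d2 := det_eq M'
    have hE : M.1 0 0 = M'.1 0 0 ∧ M.1 0 1 = M'.1 0 1 ∧ M.1 1 0 = M'.1 1 0 ∧
        M.1 1 1 = M'.1 1 1 := by
      by_cases h1 : M.1 0 0 = 0
      · by_cases h2 : M'.1 0 0 = 0
        · simp only [h1, h2, if_true, Prod.mk.injEq, true_and] at hMM
          obtain ⟨h3, h4⟩ := hMM
          rw [h1, zero_mul, zero_sub] at d1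
          rw [h2, zero_mul, zero_sub] at d2
          refine ⟨h1.trans h2.symm, h3, ?_, h4⟩
          have h5 : M.1 0 1 ≠ 0 := by
            intro h6
            rw [h6, zero_mul, neg_zero] at d1
            exact zero_ne_one d1
          apply mul_left_cancel₀ h5
          rw [← h3] at d2
          linear_combination d2 - d1
        · simp only [h1, h2, if_true, if_false, Prod.mk.injEq] at hMM
          exact absurd hMM.1.symm h2
      · by_cases h2 : M'.1 0 0 = 0
        · simp only [h1, h2, if_true, if_false, Prod.mk.injEq, false_and] at hMM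
        · simp only [h1, h2, if_false, Prod.mk.injEq] at hMM
          obtain ⟨h3, h4, h5⟩ := hMM
          refine ⟨h3, h4, h5, ?_⟩
          apply mul_left_cancel₀ h1
          rw [← h3, ← h4, ← h5] at d2
          linear_combination d1 - d2
    obtain ⟨e1, e2, e3, e4⟩ := hE
    apply Subtype.ext
    ext i j
    fin_cases i <;> fin_cases j
    · exact e1
    · exact e2
    · exact e3
    · exact e4
  have h2 := Fintype.card_le_of_injective _ h
  rw [Fintype.card_prod, Fintype.card_prod] at h2
  calc Fintype.card (SL2 F) ≤ Fintype.card F * (Fintype.card F * Fintype.card F) := h2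
    _ = Fintype.card F ^ 3 := by ring

theorem le_card : Fintype.card F ^ 3 ≤ 2 * Fintype.card (SL2 F) := by
  have h : Function.Injective (fun t : Fˣ × F × F =>
      (⟨!![(t.1 : F), t.2.1; t.2.2, (1 + t.2.1 * t.2.2) / t.1], by
        rw [Matrix.det_fin_two_of, mul_div_cancel₀ _ t.1.ne_zero]
        ring⟩ : SL2 F)) := by
    rintro ⟨a, b, c⟩ ⟨a', b', c'⟩ hE
    have h0 := congrArg Subtype.val hE
    have h1 : (a : F) = a' := congrFun (congrFun h0 0) 0
    have h2 : b = b' := congrFun (congrFun h0 0) 1
    have h3 : c = c' := congrFun (congrFun h0 1) 0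
    rw [Units.ext h1, h2, h3]
  have h2 : Fintype.card (Fˣ × F × F) ≤ Fintype.card (SL2 F) :=
    Fintype.card_le_of_injective _ h
  rw [Fintype.card_prod, Fintype.card_prod, Fintype.card_units] at h2
  have h3 : 1 < Fintype.card F := Fintype.one_lt_card
  obtain ⟨m, hm⟩ : ∃ m, Fintype.card F = m + 2 := ⟨Fintype.card F - 2, by omega⟩
  rw [hm] at h2 ⊢
  have h4 : m + 2 - 1 = m + 1 := by omega
  rw [h4] at h2
  nlinarith

end

theorem csl : S_CSL := by
  intro F _ _ _
  refine ⟨le_card, card_le, ?_⟩
  rw [Fintype.card_congr (Gp.equiv F), Fintype.card_prod, Fintype.card_fun, Fintype.card_fin]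

end Pool.Agent.Y495.CE
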